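import Pool.Agent.X264.GO.Aff

/-!
# Geometric origin of lisse sheaves: affine spaces and Lie-irreducible sheaves
-/

set_option autoImplicit false

open Pool.Agent.X264.GO Pool.Agent.X264.GO.Sys

namespace Pool.Agent.Results.MP_80bee4_ag.AffineSpacesAndLieIrreducible

/-- **Geometric origin of lisse sheaves in higher dimension.** Let `S` be a system of varieties with
their fundamental groups, finite etale coverings and dense open subvarieties, `A` and `C` classes of
representations (lisse sheaves; sheaves of geometric origin), closed under subrepresentations,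
quotients, inverse and direct images for finite etale coverings.
(1) If each variety has a dense open subvariety which is a finite etale covering of a variety in `B`
(Kedlaya: the affine spaces over the prime field), then all irreducible sheaves in `A` with a
determinant of finite order are in `C` if and only if this is true on the varieties in `B`.
(2) If the irreducible sheaves in `A` have twists with a determinant of finite order, then this is
true if and only if it is true for the Lie-irreducible ones.
(3) An irreducible sheaf is in `C` if and only if some nonzero quotient of its inverse image on some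
finite etale covering is.
(4) Each irreducible sheaf with a determinant of finite order on a covering of `X` is a quotient of
the inverse image of one on `X`. -/
theorem result {Λ : Type} [Field Λ] (S : Sys Λ) (hS : S.IsGalois) (A C : S.Cls)
    (hA : A.IsStable) (hC : C.IsStable) :
    (∀ (O : S.Opens) (B : S.Fld → Prop), O.IsDense A C → O.IsKedlaya B →
      ((∀ X, AllFiniteDet A C X) ↔ ∀ X, B X → AllFiniteDet A C X)) ∧
    (HasTwists A C → ((∀ X, AllFiniteDet A C X) ↔ ∀ X, AllFiniteDetLie A C X)) ∧
    (∀ (X : S.Fld) (V : Type) [AddCommGroup V] [Module Λ V] (ρ : S.Rep X V), IsIrr ρ →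
      (C X V ρ ↔ ∃ (Y : S.Fld) (e : S.Ext X Y) (W : Type) (_ : AddCommGroup W) (_ : Module Λ W)
        (σ : S.Rep Y W) (π : V →ₗ[Λ] W), IsMap (restr e ρ) σ π ∧ π ≠ 0 ∧ C Y W σ)) ∧
    (∀ (X Y : S.Fld) (e : S.Ext X Y) (W : Type) [AddCommGroup W] [Module Λ W]
      [FiniteDimensional Λ W] (σ : S.Rep Y W), IsIrr σ → FiniteDet σ →
      ∃ (V : Type) (_ : AddCommGroup V) (_ : Module Λ V) (_ : FiniteDimensional Λ V)
        (ρ : S.Rep X V) (π : V →ₗ[Λ] W), IsIrr ρ ∧ FiniteDet ρ ∧ IsMap (restr e ρ) σ π ∧
          Function.Surjective π) := by
  refine ⟨fun O B hO hB => affine_spaces hS hA hC hO hB,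
    (equivalences_det hS hA hC (fun _ => True) fun L => ?_).2, ?_, ?_⟩
  · obtain ⟨e, -⟩ := hS.2.1 L
    exact ⟨L, trivial, ⟨e⟩⟩
  · intro K V _ _ ρ hρ
    constructor
    · intro h
      obtain ⟨e, he⟩ := hS.2.1 K
      have := hρ.1
      obtain ⟨v, hv⟩ := exists_ne (0 : V)
      refine ⟨K, e, V, inferInstance, inferInstance, restr e ρ, LinearMap.id, fun _ _ => rfl,
        fun h0 => hv (LinearMap.congr_fun h0 v), ?_⟩
      have h2 : restr e ρ = ρ := by
        rw [restr, he]
        rfl
      rwa [h2]
    · rintro ⟨L, e, W, _, _, σ, π, h1, h2, h3⟩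
      exact mem_of_quotient hC.1 hC.2.2.2 e ρ hρ σ π h1 h2 h3
  · intro K L e W _ _ _ σ hσ hdet
    exact exists_finiteDet_over hS e σ hσ hdet

end Pool.Agent.Results.MP_80bee4_ag.AffineSpacesAndLieIrreducible
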