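import Pool.Agent.X300.GO.Notions

/-!
# Geometric origin of lisse sheaves and the geometric generic fibre of a fibration

A lisse `ℚ̄_ℓ`-sheaf on a smooth irreducible variety `X` over a finite field of characteristic
`p ≠ ℓ` is a continuous representation of the profinite group `π X`, the fundamental group. It is of
geometric origin (`Geo X A`) if a Tate twist of the representation of the Galois group of the
function field is a subquotient of `H^i(Y ⊗ K̄, ℚ̄_ℓ)` for a variety `Y` over the function field `K`.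
Q1 for `X` says that every irreducible `A` with determinant of finite order is of geometric origin.

Theorem. Assume the known facts listed in `KnownProperties`. Let `f : X → S` be smooth and surjective
with geometrically connected generic fibre, and suppose that Q1 is true for the finite etale coverings
of `S` (for example: `S` is a curve). Let `A` be irreducible on `X` with determinant of finite order. A
covering of `f` is a fibration `Y → T` with finite etale coverings `Y → X` and `T → S`.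
(1) `A` is of geometric origin if and only if on some covering `Y → T` there is a sheaf `A₁` of
geometric origin with a nonzero map to `A` on the geometric generic fibre of `Y → T`.
(2) There are a covering `Y → T` and a sheaf `N` on `Y` with trivial determinant whose restriction to
the geometric generic fibre is Lie-irreducible (irreducible on all finite coverings) and a direct
summand of the restriction of `A`, such that the rank of `N` divides the rank of `A`, and `A` is of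
geometric origin if and only if `N` is.
(3) `A` is of geometric origin if on some covering its restriction to the geometric generic fibre
contains a sheaf of rank one, for example if its monodromy on the geometric generic fibre is virtually
solvable; and if the rank of `A` is a prime number and `A` is not Lie-irreducible on the geometric
generic fibre.
(4) Q1 is true for the coverings of `X` if and only if the sheaves with trivial determinant on the
coverings of `X` which are Lie-irreducible on the geometric generic fibre are of geometric origin.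
(5) So Q1 is true for the coverings of `X` if the kernel of `π X → π S` is virtually solvable (for
example: `f` is proper and the geometric generic fibre is an abelian variety, or has a finite
fundamental group), and for all `X` with a tower of such fibrations over a curve.

Proof. Let `K` be the kernel of `π X → π S`. Choose an open normal subgroup `U` and a nonzero subspace
`N` of `A`, stable under `U ∩ K`, of minimal dimension. The translates of `N` span `A`, so there is a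
projection `p : A → N` which commutes with `U ∩ K`. For `u` near `1` the map `T_u = p u : N → N` is
invertible and intertwines the conjugation by `u` on `U ∩ K`; divided by the `d`-th root of its
determinant near `1` it defines a representation of an open subgroup, with determinant `1`, whose
restriction to `K` is `N` up to a character. This character is a weight of `U ∩ K` on the linear maps
from `N` to `A`, so it has finite order because characters of `π Y` have finite order on `K` (Deligne,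
Katz and Lang). This gives `N`. If `φ : A₁ → A` is a nonzero map on the geometric generic fibre then
the space of these maps is a representation of `π T`; with an irreducible subrepresentation `M` of it
one finds a nonzero map `A₁ ⊗ M → A` on `Y`, whose image is of geometric origin up to a twist. If `A`
is virtually solvable on `K` then `N` is a line: otherwise there is a non-scalar endomorphism of `N`
with finitely many conjugates under `U ∩ K`, by continuity it commutes with `U' ∩ K` for a smaller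
`U'`, and its eigenspaces contradict the minimality.
-/

set_option autoImplicit false

universe u

namespace Pool.Agent.Results.MP_80bee4_ag.GenericFibre

open Pool.Agent.X307.LO Pool.Agent.X300.GO Module

variable (ℓ : ℕ) [Fact ℓ.Prime]

/-- The smooth irreducible varieties `X` over finite fields of characteristic `p`, their (profinite)
fundamental groups, the sheaves of geometric origin, the constant characters (characters of the Galois
group of the field of constants), and the relations: `X` is a curve; `i` is induced by a connected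
finite etale covering `Y → X`; `β` is induced by a smooth surjective morphism `X → S` with
geometrically connected generic fibre (so the kernel of `β` is the image of the fundamental group of
the geometric generic fibre). -/
structure Varieties where
  Var : Type u
  π : Var → Type
  [grp : ∀ X, Group (π X)]
  [top : ∀ X, TopologicalSpace (π X)]
  [tg : ∀ X, IsTopologicalGroup (π X)]
  [cs : ∀ X, CompactSpace (π X)]
  [td : ∀ X, TotallyDisconnectedSpace (π X)]
  Geo : (X : Var) → CRep (PadicAlgCl ℓ) (π X) → Prop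
  Const : (X : Var) → CChar (PadicAlgCl ℓ) (π X) → Prop
  IsCurve : Var → Prop
  IsCover : (Y X : Var) → (π Y →* π X) → Prop
  IsFibration : (X S : Var) → (π X →* π S) → Prop

attribute [instance] Varieties.grp Varieties.top Varieties.tg Varieties.cs Varieties.td

variable {ℓ}

/-- Q1 for `X`: the irreducible sheaves with determinant of finite order are of geometric origin. -/
def Q1 (𝒱 : Varieties.{u} ℓ) (X : 𝒱.Var) : Prop :=
  ∀ A : CRep (PadicAlgCl ℓ) (𝒱.π X), Irr A → DetFinite A → 𝒱.Geo X A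

/-- Q1 for all connected finite etale coverings of `X`. -/
def Q1Covers (𝒱 : Varieties.{u} ℓ) (X : 𝒱.Var) : Prop := ∀ Y i, 𝒱.IsCover Y X i → Q1 𝒱 Y

/-- A constant twist of `A` is of geometric origin. -/
def GeoUpToTwist (𝒱 : Varieties.{u} ℓ) (X : 𝒱.Var) (A : CRep (PadicAlgCl ℓ) (𝒱.π X)) : Prop :=
  ∃ χ B, 𝒱.Const X χ ∧ IsTwist A χ B ∧ 𝒱.Geo X B

/-- The pull-back by `φ : π X → π Y` respects geometric origin and constant characters. -/
def IsPullback (𝒱 : Varieties.{u} ℓ) (X Y : 𝒱.Var) (φ : 𝒱.π X →* 𝒱.π Y) (hφ : Continuous φ) :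
    Prop :=
  (∀ A, 𝒱.Geo Y A → 𝒱.Geo X (A.comap φ hφ)) ∧ ∀ χ, 𝒱.Const Y χ → 𝒱.Const X (χ.comap φ hφ)

/-- `A` is of geometric origin up to a constant twist if an irreducible subsheaf of its restriction to
the covering `Y` is. -/
def DescendsFrom (𝒱 : Varieties.{u} ℓ) (Y X : 𝒱.Var) (i : 𝒱.π Y →* 𝒱.π X) (hi : Continuous i) :
    Prop :=
  ∀ A W, Irr A → Irr W → IsSub W (A.comap i hi) → GeoUpToTwist 𝒱 Y W → GeoUpToTwist 𝒱 X A

/-- The coverings correspond to the open subgroups; coverings of curves are curves, and coverings of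
coverings are coverings. -/
structure CoverProperties (𝒱 : Varieties.{u} ℓ) : Prop where
  cont : ∀ Y X i, 𝒱.IsCover Y X i → Continuous i
  injective : ∀ Y X i, 𝒱.IsCover Y X i → Function.Injective i
  open_range : ∀ Y X i, 𝒱.IsCover Y X i → IsOpen (Set.range i)
  self : ∀ X, 𝒱.IsCover X X (MonoidHom.id (𝒱.π X))
  trans : ∀ Z Y X j i, 𝒱.IsCover Z Y j → 𝒱.IsCover Y X i → 𝒱.IsCover Z X (i.comp j)
  curve : ∀ Y X i, 𝒱.IsCover Y X i → 𝒱.IsCurve X → 𝒱.IsCurve Y
  exist : ∀ X (U : Subgroup (𝒱.π X)), IsOpen (U : Set (𝒱.π X)) → ∃ Y i, 𝒱.IsCover Y X i ∧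
    i.range = U

/-- The known facts on sheaves: the theorem of L. Lafforgue for curves; a constant twist makes the
determinant finite (Deligne); `A` is of geometric origin if a constant twist of it is (Deligne,
Honda-Tate); each character has a power which is constant (Deligne, Katz-Lang); subsheaves and tensor
products (Künneth). -/
structure SheafProperties (𝒱 : Varieties.{u} ℓ) : Prop where
  lafforgue : ∀ X, 𝒱.IsCurve X → Q1 𝒱 X
  twist : ∀ X (A : CRep (PadicAlgCl ℓ) (𝒱.π X)), Irr A →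
    ∃ χ B, 𝒱.Const X χ ∧ IsTwist A χ B ∧ DetFinite B
  untwist : ∀ X (A : CRep (PadicAlgCl ℓ) (𝒱.π X)), Irr A → DetFinite A → GeoUpToTwist 𝒱 X A →
    𝒱.Geo X A
  const_power : ∀ X (χ : CChar (PadicAlgCl ℓ) (𝒱.π X)), ∃ n, 0 < n ∧ ∃ ψ, 𝒱.Const X ψ ∧
    ∀ g, χ.χ g ^ n = ψ.χ g
  sub : ∀ X (A B : CRep (PadicAlgCl ℓ) (𝒱.π X)), IsSub A B → 𝒱.Geo X B → 𝒱.Geo X A
  tensor : ∀ X (A B C : CRep (PadicAlgCl ℓ) (𝒱.π X)), IsTensorQuot A B C → 𝒱.Geo X A →
    𝒱.Geo X B → 𝒱.Geo X C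

/-- The known facts on fibrations: `π X → π S` is a quotient map, pull-back respects geometric origin
and constant characters, and constant characters of `X` are trivial on the kernel; a covering of `X`
is a fibration over a covering of `S` (Stein factorisation). -/
structure FibrationProperties (𝒱 : Varieties.{u} ℓ) : Prop where
  pullback : ∀ X S β, 𝒱.IsFibration X S β →
    ∃ q : Topology.IsQuotientMap β, IsPullback 𝒱 X S β q.continuous
  const_fibre : ∀ X S β, 𝒱.IsFibration X S β → ∀ χ, 𝒱.Const X χ → ∀ g, β g = 1 → χ.χ g = 1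
  stein : ∀ Y X S i β, 𝒱.IsCover Y X i → 𝒱.IsFibration X S β →
    ∃ T j β', 𝒱.IsCover T S j ∧ 𝒱.IsFibration Y T β' ∧ ∀ g, j (β' g) = β (i g)

/-- The known facts; pull-back to coverings respects geometric origin, and descent along coverings
(induction). -/
structure KnownProperties (𝒱 : Varieties.{u} ℓ) : Prop where
  cover : CoverProperties 𝒱
  sheaf : SheafProperties 𝒱
  fib : FibrationProperties 𝒱
  pull : ∀ Y X i (h : 𝒱.IsCover Y X i), IsPullback 𝒱 Y X i (cover.cont Y X i h)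
  descent : ∀ Y X i (h : 𝒱.IsCover Y X i), DescendsFrom 𝒱 Y X i (cover.cont Y X i h)

/-- A covering of the fibration `X → S`: a fibration `Y → T` with coverings `Y → X`, `T → S`. -/
structure FibCover (𝒱 : Varieties.{u} ℓ) (X S : 𝒱.Var) (β : 𝒱.π X →* 𝒱.π S) where
  Y : 𝒱.Var
  T : 𝒱.Var
  i : 𝒱.π Y →* 𝒱.π X
  j : 𝒱.π T →* 𝒱.π S
  β' : 𝒱.π Y →* 𝒱.π T
  top : 𝒱.IsCover Y X i
  base : 𝒱.IsCover T S j
  fib : 𝒱.IsFibration Y T β'
  comm : ∀ g, j (β' g) = β (i g)

/-- The sheaf `N` on the covering has trivial determinant, it is Lie-irreducible on the geometric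
generic fibre and a direct summand of `A` there, and its rank divides the rank of `A`. -/
def IsFibreSheaf {𝒱 : Varieties.{u} ℓ} {X S : 𝒱.Var} {β : 𝒱.π X →* 𝒱.π S} (c : FibCover 𝒱 X S β)
    (N : CRep (PadicAlgCl ℓ) (𝒱.π c.Y)) (A : CRep (PadicAlgCl ℓ) (𝒱.π X)) : Prop :=
  LieIrrOn c.β'.ker N ∧ DetOne N ∧ IsSummandOn c.i c.β'.ker N A ∧ rank N ∣ rank A

/-- The varieties with a tower of fibrations with virtually solvable kernels over a curve. -/
inductive Tower (𝒱 : Varieties.{u} ℓ) : 𝒱.Var → Prop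
  | curve (X) : 𝒱.IsCurve X → Tower 𝒱 X
  | fibration (X S β) : 𝒱.IsFibration X S β → VirtuallySolvable β.ker → Tower 𝒱 S → Tower 𝒱 X

section

variable {𝒱 : Varieties.{u} ℓ} (h𝒱 : KnownProperties 𝒱)

include h𝒱

/-- The characters of open subgroups of `π X` have finite order on the kernel of a fibration. -/
theorem charactersFinite (X S : 𝒱.Var) (β : 𝒱.π X →* 𝒱.π S) (hβ : 𝒱.IsFibration X S β) :
    CharactersFinite (PadicAlgCl ℓ) β.ker := by
  intro U hU δ
  obtain ⟨Y, i, hi, hr⟩ := h𝒱.cover.exist X U hU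
  obtain ⟨T, j, β', hT, hβ', hc⟩ := h𝒱.fib.stein Y X S i β hi hβ
  have hmem : ∀ g, i g ∈ U := fun g => hr ▸ ⟨g, rfl⟩
  let i' : 𝒱.π Y →* U := i.codRestrict U hmem
  have hi' : Continuous i' := (h𝒱.cover.cont Y X i hi).subtype_mk hmem
  obtain ⟨n, hn, ψ, hψ, hp⟩ := h𝒱.sheaf.const_power Y (δ.comap i' hi')
  refine ⟨n, hn, fun h hK => ?_⟩
  obtain ⟨g, hg⟩ : ∃ g, i g = (h : 𝒱.π X) := by
    have h1 : (h : 𝒱.π X) ∈ i.range := hr ▸ h.2
    exact h1
  have h1 : j (β' g) = 1 := by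
    rw [hc, hg]
    exact hK
  have h2 : β' g = 1 := h𝒱.cover.injective T S j hT (by rw [h1, map_one])
  have h3 := hp g
  rw [h𝒱.fib.const_fibre Y T β' hβ' ψ hψ g h2] at h3
  have h4 : i' g = h := Subtype.ext hg
  rw [← h4]
  exact h3

/-- (1), the main implication. -/
theorem geo_of_map (X S : 𝒱.Var) (β : 𝒱.π X →* 𝒱.π S)
    (hS : Q1Covers 𝒱 S) (A : CRep (PadicAlgCl ℓ) (𝒱.π X)) (hA : Irr A) (hdet : DetFinite A)
    (c : FibCover 𝒱 X S β) (A₁ : CRep (PadicAlgCl ℓ) (𝒱.π c.Y)) (hA₁ : 𝒱.Geo c.Y A₁)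
    (hφ : HasMapOn c.i c.β'.ker A₁ A) : 𝒱.Geo X A := by
  obtain ⟨φ, hφ0, hφ⟩ := hφ
  obtain ⟨Y, T, i, j, β', hYt, hYb, hYf, hYc⟩ := c
  change CRep (PadicAlgCl ℓ) (𝒱.π Y) at A₁
  change ∀ n, β' n = 1 → ∀ v, φ (A₁.act n v) = A.act (i n) (φ v) at hφ
  have hci := h𝒱.cover.cont Y X i hYt
  obtain ⟨q, hgeo, hconst⟩ := h𝒱.fib.pullback Y T β' hYf
  obtain ⟨B, F, hF, hFs, hFe⟩ := exists_hom_descent A₁ (A.comap i hci) β' q
  obtain ⟨b, hb⟩ := hFs φ hφ
  have hb0 : b ≠ 0 := by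
    intro h
    apply hφ0
    rw [← hb, h, map_zero]
    rfl
  obtain ⟨N, hN, hIrr⟩ := exists_irr_sub B ⟨b, 0, hb0⟩
  let M : CRep (PadicAlgCl ℓ) (𝒱.π T) := B.sub N hN
  -- the evaluation map and its image
  let ev : TensorProduct (PadicAlgCl ℓ) N A₁.V →ₗ[PadicAlgCl ℓ] A.V :=
    TensorProduct.lift (F ∘ₗ N.subtype)
  have hev : ∀ (g : 𝒱.π Y) (x : TensorProduct (PadicAlgCl ℓ) N A₁.V),
      ev (TensorProduct.map ((B.ρ (β' g)).restrict (hN (β' g))) (A₁.ρ g) x) = A.ρ (i g) (ev x) := by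
    intro g x
    induction x using TensorProduct.induction_on with
    | zero => simp
    | tmul m v => exact hFe g m.1 v
    | add x y hx hy => rw [map_add, map_add, hx, hy, map_add, map_add]
  let C : Submodule (PadicAlgCl ℓ) A.V := LinearMap.range ev
  have hC : ∀ g, ∀ v ∈ C, (A.comap i hci).ρ g v ∈ C := by
    rintro g _ ⟨x, rfl⟩
    exact ⟨_, hev g x⟩
  have hCn : Nontrivial C := by
    have hNn : Nontrivial N := hIrr.1
    obtain ⟨m, hm⟩ := exists_ne (0 : N)
    have hm' : F (N.subtype m) ≠ 0 := by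
      intro h
      apply hm
      have h1 : N.subtype m = 0 := hF (by rw [h, map_zero])
      exact Subtype.ext h1
    obtain ⟨v, hv⟩ : ∃ v, F (N.subtype m) v ≠ 0 := by
      by_contra hcon
      push Not at hcon
      exact hm' (LinearMap.ext hcon)
    exact ⟨⟨ev (m ⊗ₜ[PadicAlgCl ℓ] v), ⟨_, rfl⟩⟩, 0, fun h => hv (congrArg Subtype.val h)⟩
  let C' : CRep (PadicAlgCl ℓ) (𝒱.π Y) := (A.comap i hci).sub C hC
  have hq : IsQuot ((M.comap β' q.continuous).tensor A₁) C' := by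
    refine ⟨ev.rangeRestrict, LinearMap.surjective_rangeRestrict ev, fun g x => ?_⟩
    exact Subtype.ext (hev g x)
  obtain ⟨W, hW, hWI⟩ := exists_irr_sub C' hCn
  -- the twists
  obtain ⟨ψ, M₂, hψ, hM₂, hM₂d⟩ := h𝒱.sheaf.twist T M hIrr
  have hgψ : 𝒱.Geo T M₂ := hS T j hYb M₂ (hIrr.of_isTwist hM₂) hM₂d
  let one : CChar (PadicAlgCl ℓ) (𝒱.π Y) := ⟨1, continuous_const⟩
  have h1 : IsTwist A₁ one A₁ := by
    refine ⟨LinearEquiv.refl _ _, fun g v => ?_⟩
    change A₁.ρ g v = (1 : PadicAlgCl ℓ) • A₁.ρ g v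
    rw [one_smul]
  have h2 := isTensorQuot_twist hq (isTwist_comap hM₂ β' q.continuous) h1
  have h3 : (ψ.comap β' q.continuous).mul one = ψ.comap β' q.continuous := by
    change CChar.mk _ _ = CChar.mk _ _
    congr 1
    exact mul_one _
  rw [h3] at h2
  have h4 := h𝒱.sheaf.tensor Y _ _ _ h2 (hgeo _ hgψ) hA₁
  have h5 : 𝒱.Geo Y ((C'.sub W hW).twist (ψ.comap β' q.continuous)) := by
    refine h𝒱.sheaf.sub Y _ (C'.twist (ψ.comap β' q.continuous))
      ⟨W.subtype, W.injective_subtype, fun g v => ?_⟩ h4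
    rfl
  have h6 : GeoUpToTwist 𝒱 Y (C'.sub W hW) := ⟨_, _, hconst ψ hψ, isTwist_twist _ _, h5⟩
  have h7 : IsSub (C'.sub W hW) (A.comap i hci) :=
    ⟨C.subtype ∘ₗ W.subtype, C.injective_subtype.comp W.injective_subtype, fun _ _ => rfl⟩
  exact h𝒱.sheaf.untwist X A hA hdet (h𝒱.descent Y X i hYt A _ hA hWI h7 h6)

/-- The covers of the base. -/
theorem q1Covers_base (S T : 𝒱.Var) (j : 𝒱.π T →* 𝒱.π S) (hj : 𝒱.IsCover T S j)
    (hS : Q1Covers 𝒱 S) : Q1Covers 𝒱 T :=
  fun Z k hk => hS Z _ (h𝒱.cover.trans Z T S k j hk hj)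

/-- The sheaf `N`. -/
theorem exists_fibre_sheaf (X S : 𝒱.Var) (β : 𝒱.π X →* 𝒱.π S) (hβ : 𝒱.IsFibration X S β)
    (A : CRep (PadicAlgCl ℓ) (𝒱.π X)) (hA : Irr A) :
    ∃ (c : FibCover 𝒱 X S β) (N : CRep (PadicAlgCl ℓ) (𝒱.π c.Y)), IsFibreSheaf c N A := by
  obtain ⟨U, hU, R, ι, p, hpι, hnt, hdet, hdvd, hK, hirr⟩ :=
    exists_frame (rootNearOne (PadicAlgCl ℓ)) A hA β.ker (charactersFinite h𝒱 X S β hβ)
  obtain ⟨Y, i, hi, hr⟩ := h𝒱.cover.exist X U hU
  obtain ⟨T, j, β', hT, hβ', hc⟩ := h𝒱.fib.stein Y X S i β hi hβ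
  have hmem : ∀ g, i g ∈ U := fun g => hr ▸ ⟨g, rfl⟩
  let i' : 𝒱.π Y →* U := i.codRestrict U hmem
  have hi' : Continuous i' := (h𝒱.cover.cont Y X i hi).subtype_mk hmem
  refine ⟨⟨Y, T, i, j, β', hi, hT, hβ', hc⟩, R.comap i' hi', ⟨hnt, fun U' hU' W hW => ?_⟩,
    fun g => hdet (i' g), ⟨ι, p, hpι, fun n hn => ?_⟩, hdvd⟩
  · obtain ⟨Z, k, hk, hkr⟩ := h𝒱.cover.exist Y U' hU'
    have hik := h𝒱.cover.trans Z Y X k i hk hi
    refine hirr (i.comp k).range (h𝒱.cover.open_range Z X _ hik) W ?_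
    rintro h ⟨⟨z, hz⟩, hh⟩ x hx
    have h1 : i' (k z) = h := Subtype.ext hz
    have h2 : β' (k z) = 1 := by
      refine h𝒱.cover.injective T S j hT ?_
      rw [hc, map_one]
      have h3 : β (h : 𝒱.π X) = 1 := hh
      rw [← h3, ← h1]
      rfl
    have h4 : R.ρ (i' (k z)) x ∈ W := hW (k z) ⟨hkr ▸ ⟨z, rfl⟩, h2⟩ x hx
    rw [h1] at h4
    exact h4
  · have h1 : ((i' n : U) : 𝒱.π X) ∈ β.ker := by
      change β (i n) = 1
      rw [← hc, hn, map_one]
    exact ⟨fun x => ((hK (i' n) h1).1 x).symm, fun v => (hK (i' n) h1).2 v⟩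

/-- The trivial covering. -/
def FibCover.self (X S : 𝒱.Var) (β : 𝒱.π X →* 𝒱.π S) (hβ : 𝒱.IsFibration X S β) :
    FibCover 𝒱 X S β :=
  ⟨X, S, MonoidHom.id _, MonoidHom.id _, β, h𝒱.cover.self X, h𝒱.cover.self S, hβ, fun _ => rfl⟩

/-- (2) -/
theorem geo_iff (X S : 𝒱.Var) (β : 𝒱.π X →* 𝒱.π S)
    (hS : Q1Covers 𝒱 S) (A : CRep (PadicAlgCl ℓ) (𝒱.π X)) (hA : Irr A) (hdet : DetFinite A)
    (c : FibCover 𝒱 X S β) (N : CRep (PadicAlgCl ℓ) (𝒱.π c.Y)) (hs : IsFibreSheaf c N A) :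
    𝒱.Geo X A ↔ 𝒱.Geo c.Y N := by
  obtain ⟨hN, hN1, ⟨ι, p, hpι, hip⟩, -⟩ := hs
  have hci := h𝒱.cover.cont c.Y X c.i c.top
  have hNn : Nontrivial N.V := hN.1
  obtain ⟨x, hx⟩ := exists_ne (0 : N.V)
  constructor
  · intro h
    refine geo_of_map h𝒱 c.Y c.T c.β' (q1Covers_base h𝒱 S c.T c.j c.base hS) N hN.irr hN1.finite
      (FibCover.self h𝒱 c.Y c.T c.β' c.fib) (A.comap c.i hci) ((h𝒱.pull c.Y X c.i c.top).1 A h)
      ⟨p, fun h0 => hx ?_, fun n hn v => ?_⟩
    · rw [← hpι x, h0]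
      rfl
    · exact (hip n hn).2 v
  · intro h
    refine geo_of_map h𝒱 X S β hS A hA hdet c N h ⟨ι, fun h0 => hx ?_, fun n hn v => ?_⟩
    · rw [← hpι x, h0, LinearMap.zero_apply, map_zero]
    · exact (hip n hn).1 v

/-- The sheaf `A` is of geometric origin if `U ∩ ker β` has a common fixed vector. -/
theorem geo_of_fixed (X S : 𝒱.Var) (β : 𝒱.π X →* 𝒱.π S) (hβ : 𝒱.IsFibration X S β)
    (hS : Q1Covers 𝒱 S) (A : CRep (PadicAlgCl ℓ) (𝒱.π X)) (hA : Irr A) (hdet : DetFinite A)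
    (U : Subgroup (𝒱.π X)) (hU : IsOpen (U : Set (𝒱.π X))) (x : A.V) (hx : x ≠ 0)
    (hfix : ∀ h ∈ U ⊓ β.ker, A.ρ h x = x) : 𝒱.Geo X A := by
  obtain ⟨Y, i, hi, hr⟩ := h𝒱.cover.exist X U hU
  obtain ⟨T, j, β', hT, hβ', hc⟩ := h𝒱.fib.stein Y X S i β hi hβ
  obtain ⟨q, hgeo, -⟩ := h𝒱.fib.pullback Y T β' hβ'
  have ht : 𝒱.Geo T (triv (PadicAlgCl ℓ) (𝒱.π T)) := by
    refine hS T j hT _ ⟨?_, fun W _ => ?_⟩ ⟨1, one_pos, fun g => ?_⟩
    · exact inferInstanceAs (Nontrivial (PadicAlgCl ℓ))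
    · exact eq_bot_or_eq_top (α := Submodule (PadicAlgCl ℓ) (PadicAlgCl ℓ)) W
    · change LinearMap.det (1 : PadicAlgCl ℓ →ₗ[PadicAlgCl ℓ] PadicAlgCl ℓ) ^ 1 = 1
      rw [map_one, one_pow]
  let φ : PadicAlgCl ℓ →ₗ[PadicAlgCl ℓ] A.V := LinearMap.toSpanSingleton _ _ x
  refine geo_of_map h𝒱 X S β hS A hA hdet ⟨Y, T, i, j, β', hi, hT, hβ', hc⟩ _ (hgeo _ ht)
    ⟨φ, ?_, ?_⟩
  · intro h0
    apply hx
    have h2 : φ 1 = x := by
      change (1 : PadicAlgCl ℓ) • x = x
      rw [one_smul]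
    rw [← h2, h0]
    rfl
  · intro n hn v
    have h2 : A.ρ (i n) x = x := by
      refine hfix _ ⟨hr ▸ ⟨n, rfl⟩, ?_⟩
      change β (i n) = 1
      rw [← hc, hn, map_one]
    change v • x = A.ρ (i n) (v • x)
    rw [map_smul, h2]

/-- (3), lines. -/
theorem geo_of_line (X S : 𝒱.Var) (β : 𝒱.π X →* 𝒱.π S) (hβ : 𝒱.IsFibration X S β)
    (hS : Q1Covers 𝒱 S) (A : CRep (PadicAlgCl ℓ) (𝒱.π X)) (hA : Irr A) (hdet : DetFinite A)
    (hl : HasLineOn β.ker A) : 𝒱.Geo X A := by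
  obtain ⟨U, hU, v, hv0, hv⟩ := hl
  have hev := translate_fixed A β.ker (charactersFinite h𝒱 X S β hβ) U hU v hv0 hv 1
  obtain ⟨U', hU', -, hU'p⟩ := exists_open_normal hev
  refine geo_of_fixed h𝒱 X S β hβ hS A hA hdet U' hU' v hv0 fun h hh => ?_
  have h1 := hU'p h hh.1 hh.2
  rw [map_one, Module.End.one_apply] at h1
  exact h1

/-- (3), virtually solvable monodromy. -/
theorem geo_of_solvable (X S : 𝒱.Var) (β : 𝒱.π X →* 𝒱.π S) (hβ : 𝒱.IsFibration X S β)
    (hS : Q1Covers 𝒱 S) (A : CRep (PadicAlgCl ℓ) (𝒱.π X)) (hA : Irr A) (hdet : DetFinite A)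
    (hs : VirtuallySolvableOn β.ker A) : 𝒱.Geo X A := by
  obtain ⟨U₀, hU₀, hsolv⟩ := hs
  obtain ⟨U, hU, v, hv0, hv⟩ := exists_eigenvector A hA.1 β.ker U₀ hU₀ hsolv
  exact geo_of_line h𝒱 X S β hβ hS A hA hdet ⟨U, hU, v, hv0, hv⟩

/-- (3), prime rank. -/
theorem geo_or_lieIrr (X S : 𝒱.Var) (β : 𝒱.π X →* 𝒱.π S) (hβ : 𝒱.IsFibration X S β)
    (hS : Q1Covers 𝒱 S) (A : CRep (PadicAlgCl ℓ) (𝒱.π X)) (hA : Irr A) (hdet : DetFinite A)
    (hp : (rank A).Prime) : 𝒱.Geo X A ∨ LieIrrOn β.ker A := by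
  obtain ⟨⟨Y, T, i, j, β', hYt, hYb, hYf, hYc⟩, N, hN, hN1, ⟨ι, p, hpι, hip⟩, hdvd⟩ :=
    exists_fibre_sheaf h𝒱 X S β hβ A hA
  change CRep (PadicAlgCl ℓ) (𝒱.π Y) at N
  change ∀ n, β' n = 1 → (∀ x, ι (N.act n x) = A.act (i n) (ι x)) ∧
    ∀ v, p (A.act (i n) v) = N.act n (p v) at hip
  change LieIrrOn β'.ker N at hN
  have hNn : Nontrivial N.V := hN.1
  have hinj : Function.Injective ι := Function.LeftInverse.injective hpι
  rcases (Nat.dvd_prime hp).mp hdvd with h1 | h1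
  · left
    obtain ⟨x, hx⟩ := exists_ne (0 : N.V)
    refine geo_of_fixed h𝒱 X S β hβ hS A hA hdet i.range (h𝒱.cover.open_range Y X i hYt) (ι x)
      (fun h => hx (hinj (by rw [h, map_zero]))) ?_
    rintro _ ⟨⟨n, rfl⟩, hn⟩
    have h2 : β' n = 1 := by
      refine h𝒱.cover.injective T S j hYb ?_
      rw [hYc, map_one]
      exact hn
    have h3 := (hip n h2).1 x
    have h4 : N.act n x = x := by
      change N.ρ n x = x
      rw [eq_one_of_det h1 _ (hN1 n)]
      rfl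
    rw [h4] at h3
    exact h3.symm
  · right
    have hsurj : Function.Surjective ι :=
      (LinearMap.injective_iff_surjective_of_finrank_eq_finrank h1).mp hinj
    refine ⟨hA.1, fun U hU W hW => ?_⟩
    have hci := h𝒱.cover.cont Y X i hYt
    have hW' : ∀ g ∈ U.comap i ⊓ β'.ker, ∀ v ∈ W.comap ι, N.act g v ∈ W.comap ι := by
      rintro g ⟨hg1, hg2⟩ v hv
      rw [Submodule.mem_comap, (hip g hg2).1 v]
      refine hW (i g) ⟨hg1, ?_⟩ (ι v) hv
      change β (i g) = 1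
      have h2 : β' g = 1 := hg2
      rw [← hYc, h2, map_one]
    rcases hN.2 (U.comap i) (hU.preimage hci) (W.comap ι) hW' with h | h
    · left
      rw [eq_bot_iff]
      intro w hw
      obtain ⟨v, rfl⟩ := hsurj w
      have h2 : v ∈ W.comap ι := hw
      rw [h, Submodule.mem_bot] at h2
      rw [h2, map_zero]
      exact Submodule.zero_mem _
    · right
      rw [eq_top_iff]
      intro w _
      obtain ⟨v, rfl⟩ := hsurj w
      have h2 : v ∈ W.comap ι := h ▸ Submodule.mem_top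
      exact h2

/-- (5) -/
theorem q1Covers_of_solvable (X S : 𝒱.Var) (β : 𝒱.π X →* 𝒱.π S) (hβ : 𝒱.IsFibration X S β)
    (hS : Q1Covers 𝒱 S) (hs : VirtuallySolvable β.ker) : Q1Covers 𝒱 X := by
  intro Y i hi A hA hdet
  obtain ⟨T, j, β', hT, hβ', hc⟩ := h𝒱.fib.stein Y X S i β hi hβ
  obtain ⟨U, hU, hsolv⟩ := hs
  have hci := h𝒱.cover.cont Y X i hi
  refine geo_of_solvable h𝒱 Y T β' hβ' (q1Covers_base h𝒱 S T j hT hS) A hA hdet
    ⟨U.comap i, hU.preimage hci, ?_⟩
  let φ : (U.comap i ⊓ β'.ker : Subgroup (𝒱.π Y)) →* (U ⊓ β.ker : Subgroup (𝒱.π X)) :=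
    (i.comp (U.comap i ⊓ β'.ker).subtype).codRestrict _ fun g => by
      refine ⟨g.2.1, ?_⟩
      have h1 : β' g.1 = 1 := g.2.2
      change β (i g.1) = 1
      rw [← hc, h1, map_one]
  have hφ : Function.Injective φ := fun a b hab =>
    Subtype.ext (h𝒱.cover.injective Y X i hi (congrArg Subtype.val hab))
  have hsol := Group.isSolvable_of_isSolvable_injective hφ
  obtain ⟨n, hn⟩ := hsol.solvable
  refine ⟨n, ?_⟩
  rintro _ ⟨g, hg, rfl⟩
  rw [hn] at hg
  have h1 : g = 1 := hg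
  rw [h1, map_one, map_one]

end

/-- (1) -/
def Criterion (𝒱 : Varieties.{u} ℓ) (X S : 𝒱.Var) (β : 𝒱.π X →* 𝒱.π S)
    (A : CRep (PadicAlgCl ℓ) (𝒱.π X)) : Prop :=
  𝒱.Geo X A ↔ ∃ (c : FibCover 𝒱 X S β) (A₁ : CRep (PadicAlgCl ℓ) (𝒱.π c.Y)),
    𝒱.Geo c.Y A₁ ∧ HasMapOn c.i c.β'.ker A₁ A

/-- (2) -/
def HasFibreSheaf (𝒱 : Varieties.{u} ℓ) (X S : 𝒱.Var) (β : 𝒱.π X →* 𝒱.π S)
    (A : CRep (PadicAlgCl ℓ) (𝒱.π X)) : Prop :=
  ∃ (c : FibCover 𝒱 X S β) (N : CRep (PadicAlgCl ℓ) (𝒱.π c.Y)),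
    IsFibreSheaf c N A ∧ (𝒱.Geo X A ↔ 𝒱.Geo c.Y N)

/-- (3) -/
def SpecialCases (𝒱 : Varieties.{u} ℓ) (X S : 𝒱.Var) (β : 𝒱.π X →* 𝒱.π S)
    (A : CRep (PadicAlgCl ℓ) (𝒱.π X)) : Prop :=
  (HasLineOn β.ker A → 𝒱.Geo X A) ∧ (VirtuallySolvableOn β.ker A → HasLineOn β.ker A) ∧
    ((rank A).Prime → 𝒱.Geo X A ∨ LieIrrOn β.ker A)

/-- (4) -/
def Reduction (𝒱 : Varieties.{u} ℓ) (X S : 𝒱.Var) (β : 𝒱.π X →* 𝒱.π S) : Prop :=
  Q1Covers 𝒱 X ↔ ∀ (c : FibCover 𝒱 X S β) (N : CRep (PadicAlgCl ℓ) (𝒱.π c.Y)),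
    LieIrrOn c.β'.ker N → DetOne N → 𝒱.Geo c.Y N

/-- The statements for a fibration. -/
def ForFibration (𝒱 : Varieties.{u} ℓ) (X S : 𝒱.Var) (β : 𝒱.π X →* 𝒱.π S) : Prop :=
  (∀ A : CRep (PadicAlgCl ℓ) (𝒱.π X), Irr A → DetFinite A →
    Criterion 𝒱 X S β A ∧ HasFibreSheaf 𝒱 X S β A ∧ SpecialCases 𝒱 X S β A) ∧
  Reduction 𝒱 X S β ∧ (VirtuallySolvable β.ker → Q1Covers 𝒱 X)

/-- (1), (2), (3) for all sheaves; (4) the reduction of Q1 for the coverings of `X`; (5) towers. -/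
theorem result (𝒱 : Varieties.{u} ℓ) (h𝒱 : KnownProperties 𝒱) :
    (∀ (X S : 𝒱.Var) (β : 𝒱.π X →* 𝒱.π S), 𝒱.IsFibration X S β → Q1Covers 𝒱 S →
      ForFibration 𝒱 X S β) ∧ ∀ X, Tower 𝒱 X → Q1 𝒱 X := by
  refine ⟨fun X S β hβ hS => ⟨fun A hA hdet => ⟨⟨fun h => ?_, ?_⟩, ?_,
    geo_of_line h𝒱 X S β hβ hS A hA hdet, ?_, geo_or_lieIrr h𝒱 X S β hβ hS A hA hdet⟩,
    ⟨fun h c N hN hN1 => h c.Y c.i c.top N hN.irr hN1.finite,
      fun h Y i hi A hA hdet => ?_⟩, q1Covers_of_solvable h𝒱 X S β hβ hS⟩, fun X hX => ?_⟩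
  · refine ⟨FibCover.self h𝒱 X S β hβ, A, h, LinearMap.id, fun h0 => ?_, fun _ _ _ => rfl⟩
    have hAn := hA.1
    obtain ⟨x, hx⟩ := exists_ne (0 : A.V)
    exact hx (congrArg (fun f : A.V →ₗ[PadicAlgCl ℓ] A.V => f x) h0)
  · rintro ⟨c, A₁, hA₁, hφ⟩
    exact geo_of_map h𝒱 X S β hS A hA hdet c A₁ hA₁ hφ
  · obtain ⟨c, N, hs⟩ := exists_fibre_sheaf h𝒱 X S β hβ A hA
    exact ⟨c, N, hs, geo_iff h𝒱 X S β hS A hA hdet c N hs⟩
  · rintro ⟨U₀, hU₀, hsolv⟩
    obtain ⟨U, hU, v, hv0, hv⟩ := exists_eigenvector A hA.1 β.ker U₀ hU₀ hsolv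
    exact ⟨U, hU, v, hv0, hv⟩
  · obtain ⟨T, j, β', hT, hβ', hc⟩ := h𝒱.fib.stein Y X S i β hi hβ
    have hT' := q1Covers_base h𝒱 S T j hT hS
    obtain ⟨c, N, hs⟩ := exists_fibre_sheaf h𝒱 Y T β' hβ' A hA
    refine (geo_iff h𝒱 Y T β' hT' A hA hdet c N hs).mpr ?_
    refine h ⟨c.Y, c.T, i.comp c.i, j.comp c.j, c.β', h𝒱.cover.trans c.Y Y X c.i i c.top hi,
      h𝒱.cover.trans c.T T S c.j j c.base hT, c.fib, fun g => ?_⟩ N hs.1 hs.2.1
    change j (c.j (c.β' g)) = β (i (c.i g))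
    rw [c.comm, hc]
  · have key : Q1Covers 𝒱 X := by
      induction hX with
      | curve X h => exact fun Y i hi => h𝒱.sheaf.lafforgue Y (h𝒱.cover.curve Y X i hi h)
      | fibration X S β hβ hs _ ih => exact q1Covers_of_solvable h𝒱 X S β hβ ih hs
    exact key X _ (h𝒱.cover.self X)

end Pool.Agent.Results.MP_80bee4_ag.GenericFibre
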