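import Pool.Agent.X307.LO.Twist

/-!
# Geometric origin of lisse sheaves on varieties dominated by products of curves

A lisse `ℚ̄_ℓ`-sheaf on a smooth irreducible variety `X` over a finite field of characteristic
`p ≠ ℓ` is a continuous representation of the fundamental group `π X`. It is of geometric origin
(`Geo X A`) if a Tate twist of the representation of the Galois group of the function field is a
subquotient of `H^i(Y ⊗ K̄, ℚ̄_ℓ)` for a variety `Y` over the function field `K`. Q1 for `X` says that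
every irreducible `A` with determinant of finite order is of geometric origin.

Theorem. Assume the known facts listed in `KnownProperties` (the theorem of L. Lafforgue for curves,
Deligne, Honda-Tate, the exact homotopy sequence of SGA 1, Künneth).
(1) Q1 is true for every variety in the smallest class which contains the smooth curves, the products
`X₁ × X₂` with `X₁`, `X₂` in the class and `X₁` projective, and all varieties dominated by a variety
in the class. So Q1 is true for all `X` dominated by a product of projective curves and one arbitrary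
curve.
(2) If `X₁` is projective and Q1 is true for `X₁` and for `X₂`, then Q1 is true for `X₁ × X₂`.
(3) Let `f : X → S` be proper and smooth with geometrically connected fibres, and suppose that Q1 is
true for `S` (for example `S` a curve). Let `A` be irreducible on `X` with determinant of finite
order. If the restriction of `A` to the geometric generic fibre is isomorphic to the restriction of a
sheaf of geometric origin on `X`, then `A` is of geometric origin.

Proof. Let `A` and `A₁` have isomorphic restrictions to the kernel `N` of `β : π X → π S`. The linear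
maps `A₁ → A` which commute with `N` form a representation of `π X` on which `N` acts trivially, so it
is `β^*B` for a lisse sheaf `B` on `S`, and `A₁ ⊗ β^*B → A` is surjective. For `X = X₁ × X₂` and
`β = pr₂` one takes `A₁ = pr₁^*(A|_{X₁ × x})` for a rational point `x` of `X₂`.
-/

set_option autoImplicit false

universe u

namespace Pool.Agent.Results.MP_80bee4_ag.ProductsOfCurves

open Pool.Agent.X307.LO

variable (ℓ : ℕ) [Fact ℓ.Prime]

/-- The smooth irreducible varieties `X` over finite fields of characteristic `p`, their fundamental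
groups, the sheaves of geometric origin, the constant characters (characters of the Galois group of
the field of constants), and the relations: `X` is a curve; `X = X₁ × X₂` over the common field of
constants, with `X₁` projective and `X₂` with a rational point; `β` is induced by a proper smooth
morphism `X → S` with geometrically connected fibres; there is a dominant morphism `X' → X`. -/
structure Varieties where
  Var : Type u
  π : Var → Type
  [grp : ∀ X, Group (π X)]
  [top : ∀ X, TopologicalSpace (π X)]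
  [tg : ∀ X, IsTopologicalGroup (π X)]
  Geo : (X : Var) → CRep (PadicAlgCl ℓ) (π X) → Prop
  Const : (X : Var) → CChar (PadicAlgCl ℓ) (π X) → Prop
  IsCurve : Var → Prop
  IsProduct : Var → Var → Var → Prop
  IsFibration : (X S : Var) → (π X →* π S) → Prop
  Dominates : Var → Var → Prop

attribute [instance] Varieties.grp Varieties.top Varieties.tg

variable {ℓ}

/-- Q1 for `X`: the irreducible sheaves with determinant of finite order are of geometric origin. -/
def Q1 (𝒱 : Varieties.{u} ℓ) (X : 𝒱.Var) : Prop :=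
  ∀ A : CRep (PadicAlgCl ℓ) (𝒱.π X), Irr A → DetFinite A → 𝒱.Geo X A

/-- The pull-back by `φ : π X → π Y` respects geometric origin and constant characters. -/
def IsPullback (𝒱 : Varieties.{u} ℓ) (X Y : 𝒱.Var) (φ : 𝒱.π X →* 𝒱.π Y) (hφ : Continuous φ) :
    Prop :=
  (∀ A, 𝒱.Geo Y A → 𝒱.Geo X (A.comap φ hφ)) ∧ ∀ χ, 𝒱.Const Y χ → 𝒱.Const X (χ.comap φ hφ)

/-- The homotopy exact sequence for `pr₂ : X = X₁ × X₂ → X₂`: `s` is induced by
`X₁ = X₁ × x → X`, and the kernel of `pr₂` on fundamental groups is the fundamental group of the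
geometric fibre `X₁ ⊗ k̄`, on which `s ∘ pr₁` is the identity. -/
def HomotopySequence (𝒱 : Varieties.{u} ℓ) (X X₁ X₂ : 𝒱.Var) : Prop :=
  ∃ (pr₁ : 𝒱.π X →* 𝒱.π X₁) (c₁ : Continuous pr₁) (pr₂ : 𝒱.π X →* 𝒱.π X₂)
    (q₂ : Topology.IsQuotientMap pr₂) (s : 𝒱.π X₁ →* 𝒱.π X), Continuous s ∧
      IsPullback 𝒱 X X₁ pr₁ c₁ ∧ IsPullback 𝒱 X X₂ pr₂ q₂.continuous ∧
        ∀ n, pr₂ n = 1 → s (pr₁ n) = n

/-- A constant twist of `A` is of geometric origin. -/
def GeoUpToTwist (𝒱 : Varieties.{u} ℓ) (X : 𝒱.Var) (A : CRep (PadicAlgCl ℓ) (𝒱.π X)) : Prop :=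
  ∃ χ B, 𝒱.Const X χ ∧ IsTwist A χ B ∧ 𝒱.Geo X B

/-- Each irreducible `A` on `X` has an irreducible `W` on `X'` (inside the pull-back of `A`) such that
`A` is of geometric origin up to a constant twist if `W` is. -/
def Descends (𝒱 : Varieties.{u} ℓ) (X' X : 𝒱.Var) : Prop :=
  ∀ A : CRep (PadicAlgCl ℓ) (𝒱.π X), Irr A → ∃ W : CRep (PadicAlgCl ℓ) (𝒱.π X'), Irr W ∧
    (GeoUpToTwist 𝒱 X' W → GeoUpToTwist 𝒱 X A)

/-- The known facts: the theorem of L. Lafforgue for curves; a constant twist makes the determinant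
finite (Deligne); `A` is of geometric origin if a constant twist of it is (Deligne, Honda-Tate);
quotients and tensor products (Künneth); products of constant characters; the homotopy exact sequence
for products and fibrations (SGA 1); descent along dominant morphisms (specialisation and
induction). -/
structure KnownProperties (𝒱 : Varieties.{u} ℓ) : Prop where
  lafforgue : ∀ X, 𝒱.IsCurve X → Q1 𝒱 X
  twist : ∀ X (A : CRep (PadicAlgCl ℓ) (𝒱.π X)), Irr A →
    ∃ χ B, 𝒱.Const X χ ∧ IsTwist A χ B ∧ DetFinite B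
  untwist : ∀ X (A : CRep (PadicAlgCl ℓ) (𝒱.π X)), Irr A → DetFinite A → GeoUpToTwist 𝒱 X A →
    𝒱.Geo X A
  quotient : ∀ X (A B : CRep (PadicAlgCl ℓ) (𝒱.π X)), IsQuot A B → 𝒱.Geo X A → 𝒱.Geo X B
  tensor : ∀ X (A B C : CRep (PadicAlgCl ℓ) (𝒱.π X)), IsTensorQuot A B C → 𝒱.Geo X A →
    𝒱.Geo X B → 𝒱.Geo X C
  const_mul : ∀ X (χ ψ : CChar (PadicAlgCl ℓ) (𝒱.π X)), 𝒱.Const X χ → 𝒱.Const X ψ →
    𝒱.Const X (χ.mul ψ)
  product : ∀ X X₁ X₂, 𝒱.IsProduct X X₁ X₂ → HomotopySequence 𝒱 X X₁ X₂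
  fibration : ∀ X S β, 𝒱.IsFibration X S β →
    ∃ q : Topology.IsQuotientMap β, IsPullback 𝒱 X S β q.continuous
  dominated : ∀ X' X, 𝒱.Dominates X' X → Descends 𝒱 X' X

/-- The smallest class of varieties which contains the curves, the products of members with projective
first factor, and the varieties dominated by members. -/
inductive FromCurves (𝒱 : Varieties.{u} ℓ) : 𝒱.Var → Prop
  | curve (X) : 𝒱.IsCurve X → FromCurves 𝒱 X
  | product (X X₁ X₂) : 𝒱.IsProduct X X₁ X₂ → FromCurves 𝒱 X₁ → FromCurves 𝒱 X₂ → FromCurves 𝒱 X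
  | dominated (X' X) : 𝒱.Dominates X' X → FromCurves 𝒱 X' → FromCurves 𝒱 X

/-- `A` and `A₁` have isomorphic restrictions to the kernel of `β` (the fundamental group of the
geometric generic fibre). -/
def SameOnKernel {G Q : Type} [Group G] [TopologicalSpace G] [Group Q] (β : G →* Q)
    (A₁ A : CRep (PadicAlgCl ℓ) G) : Prop :=
  ∃ e : A₁.V ≃ₗ[PadicAlgCl ℓ] A.V, ∀ n, β n = 1 → ∀ v, e (A₁.act n v) = A.act n (e v)

section

variable {𝒱 : Varieties.{u} ℓ} (h𝒱 : KnownProperties 𝒱)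

include h𝒱

/-- Q1 for `X` says that each irreducible sheaf has a constant twist of geometric origin. -/
theorem q1_iff (X : 𝒱.Var) : Q1 𝒱 X ↔ ∀ A : CRep (PadicAlgCl ℓ) (𝒱.π X), Irr A →
    GeoUpToTwist 𝒱 X A := by
  constructor
  · intro h A hA
    obtain ⟨χ, B, hχ, hB, hdet⟩ := h𝒱.twist X A hA
    exact ⟨χ, B, hχ, hB, h B (hA.of_isTwist hB) hdet⟩
  · exact fun h A hA hdet => h𝒱.untwist X A hA hdet (h A hA)

theorem q1_product (X X₁ X₂ : 𝒱.Var) (hX : 𝒱.IsProduct X X₁ X₂) (h₁ : Q1 𝒱 X₁) (h₂ : Q1 𝒱 X₂) :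
    Q1 𝒱 X := by
  rw [q1_iff h𝒱] at h₁ h₂ ⊢
  obtain ⟨pr₁, c₁, pr₂, q₂, s, hs, ⟨g₁, k₁⟩, ⟨g₂, k₂⟩, hker⟩ := h𝒱.product X X₁ X₂ hX
  intro A hA
  obtain ⟨B, hB⟩ := exists_quot ((A.comap s hs).comap pr₁ c₁) A pr₂ q₂ (LinearEquiv.refl _ _)
    (by
      intro n hn v
      change A.ρ (s (pr₁ n)) v = A.ρ n v
      rw [hker n hn])
  obtain ⟨A', B', hA', hB', hq⟩ := exists_irr_irr pr₁ c₁ pr₂ q₂.continuous A hA _ B hB
  obtain ⟨χ, A₂, hχ, hA₂, hgχ⟩ := h₁ A' hA'
  obtain ⟨ψ, B₂, hψ, hB₂, hgψ⟩ := h₂ B' hB'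
  exact ⟨(χ.comap pr₁ c₁).mul (ψ.comap pr₂ q₂.continuous), _,
    h𝒱.const_mul X _ _ (k₁ χ hχ) (k₂ ψ hψ), isTwist_twist A _,
    h𝒱.tensor X _ _ _ (isTensorQuot_twist hq (isTwist_comap hA₂ pr₁ c₁)
      (isTwist_comap hB₂ pr₂ q₂.continuous)) (g₁ _ hgχ) (g₂ _ hgψ)⟩

theorem geo_of_sameOnKernel (X S : 𝒱.Var) (β : 𝒱.π X →* 𝒱.π S) (hβ : 𝒱.IsFibration X S β)
    (hS : Q1 𝒱 S) (A A₁ : CRep (PadicAlgCl ℓ) (𝒱.π X)) (hA : Irr A) (hdet : DetFinite A)
    (hA₁ : 𝒱.Geo X A₁) (h : SameOnKernel β A₁ A) : 𝒱.Geo X A := by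
  obtain ⟨q, hgeo, hconst⟩ := h𝒱.fibration X S β hβ
  obtain ⟨e, he⟩ := h
  obtain ⟨B, hB⟩ := exists_quot A₁ A β q e he
  obtain ⟨B', hB', hq⟩ := exists_irr β q.continuous _ A hA B (isQuot_comm hB)
  obtain ⟨ψ, B₂, hψ, hB₂, hgψ⟩ := (q1_iff h𝒱 S).mp hS B' hB'
  let one : CChar (PadicAlgCl ℓ) (𝒱.π X) := ⟨1, continuous_const⟩
  have h1 : IsTwist A₁ one A₁ := by
    refine ⟨LinearEquiv.refl _ _, fun g v => ?_⟩
    change A₁.ρ g v = (1 : PadicAlgCl ℓ) • A₁.ρ g v
    rw [one_smul]
  have h2 := isTensorQuot_twist hq (isTwist_comap hB₂ β q.continuous) h1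
  have h3 : (ψ.comap β q.continuous).mul one = ψ.comap β q.continuous := by
    change CChar.mk _ _ = CChar.mk _ _
    congr 1
    exact mul_one _
  rw [h3] at h2
  exact h𝒱.untwist X A hA hdet ⟨_, _, hconst ψ hψ, isTwist_twist A _,
    h𝒱.tensor X _ _ _ h2 (hgeo _ hgψ) hA₁⟩

end

/-- (1) Q1 for all varieties which come from curves; (2) Q1 for products; (3) the criterion for
fibrations. -/
theorem result (𝒱 : Varieties.{u} ℓ) (h𝒱 : KnownProperties 𝒱) :
    (∀ X, FromCurves 𝒱 X → Q1 𝒱 X) ∧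
    (∀ X X₁ X₂, 𝒱.IsProduct X X₁ X₂ → Q1 𝒱 X₁ → Q1 𝒱 X₂ → Q1 𝒱 X) ∧
    ∀ (X S : 𝒱.Var) (β : 𝒱.π X →* 𝒱.π S), 𝒱.IsFibration X S β → Q1 𝒱 S →
      ∀ A A₁ : CRep (PadicAlgCl ℓ) (𝒱.π X), Irr A → DetFinite A → 𝒱.Geo X A₁ →
        SameOnKernel β A₁ A → 𝒱.Geo X A := by
  refine ⟨fun X hX => ?_, q1_product h𝒱, fun X S β hβ hS A A₁ hA hdet hA₁ h =>
    geo_of_sameOnKernel h𝒱 X S β hβ hS A A₁ hA hdet hA₁ h⟩
  induction hX with
  | curve X h => exact h𝒱.lafforgue X h
  | product X X₁ X₂ h _ _ h₁ h₂ => exact q1_product h𝒱 X X₁ X₂ h h₁ h₂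
  | dominated X' X h _ hX' =>
    rw [q1_iff h𝒱] at hX' ⊢
    intro A hA
    obtain ⟨W, hW, hd⟩ := h𝒱.dominated X' X h A hA
    exact hd (hX' W hW)

end Pool.Agent.Results.MP_80bee4_ag.ProductsOfCurves
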