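import Pool.Agent.H313.TD.Cor

/-!
# Tensor decomposition of lisse sheaves relative to a fibration

Let `X` be a smooth variety over a finite field with a dominant morphism `X → C` with geometrically
connected generic fibre (for instance to a curve `C`), `G` the fundamental group of `X`, a profinite
group, and `N` the image in it of the fundamental group of the geometric generic fibre, a normal
subgroup with `G / N` the fundamental group of an open subset of `C`.  A lisse sheaf on `X`
is a continuous representation of `G`, its restriction to an open subgroup `U` of `G` is the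
restriction of the sheaf to a finite étale covering `X'` of `X`, and the representations of `U` that
are trivial on `N ∩ U` are the sheaves on `X'` which come from the corresponding covering `C'` of
(an open subset of) `C`; if `C` is a curve they are of geometric origin by Lafforgue.

The theorem: let `V` be a lisse sheaf on `X` that stays irreducible on all finite étale coverings,
with determinant of finite order. On a suitable finite étale covering `V` is a tensor product `B ⊗ A`
of lisse sheaves with determinants of finite order, where `B` comes from the base `C'` and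
`A` is irreducible on the geometric generic fibre and stays so on all finite étale coverings.
So for a curve `C`, if `A` is of geometric origin, then so is `V`.

If on some covering the restriction of `V` to the geometric generic fibre contains a sheaf of rank
one, then `V` itself comes from the base on some covering.  If the rank of `V` is a prime number
then either `V` stays irreducible on the geometric generic fibres of all coverings, or it comes from
the base on some covering.
-/

set_option autoImplicit false

open Matrix Topology Filter Kronecker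

namespace Pool.Agent.Results.MP_80bee4_ag.RelativeTensorDecomposition

section defs

variable {G : Type} [Group G] {E : Type} [Field E] {n : ℕ}

/-- the matrix of `ρ g` -/
abbrev matrixOf (ρ : G →* GL (Fin n) E) (g : G) : Matrix (Fin n) (Fin n) E :=
  (ρ g : Matrix (Fin n) (Fin n) E)

/-- The restriction of `ρ` to the subgroup `M` has no stable subspaces except zero and everything. -/
def IrreducibleOn (ρ : G →* GL (Fin n) E) (M : Subgroup G) : Prop :=
  ∀ W : Submodule E (Fin n → E), (∀ h ∈ M, ∀ w ∈ W, matrixOf ρ h *ᵥ w ∈ W) → W = ⊥ ∨ W = ⊤

/-- The restriction of `ρ` to `M ∩ U` is irreducible for all open subgroups `U`. -/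
def LieIrreducibleOn [TopologicalSpace G] (ρ : G →* GL (Fin n) E) (M : Subgroup G) : Prop :=
  ∀ U : Subgroup G, IsOpen (U : Set G) → IrreducibleOn ρ (M ⊓ U)

/-- `ρ` is trivial on `N ∩ U` for some open subgroup `U`. -/
def ComesFromBase [TopologicalSpace G] (ρ : G →* GL (Fin n) E) (N : Subgroup G) : Prop :=
  ∃ U : Subgroup G, IsOpen (U : Set G) ∧ ∀ h ∈ N ⊓ U, ρ h = 1

/-- The determinants of the `ρ g` are `M`-th roots of unity for some `M > 0`. -/
def HasFiniteDet (ρ : G →* GL (Fin n) E) : Prop :=
  ∃ M : ℕ, 0 < M ∧ ∀ g, (matrixOf ρ g).det ^ M = 1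

/-- The restriction of `ρ` to `U` is isomorphic to the tensor product `B ⊗ A`. -/
def IsTensorProduct {m a : ℕ} (ρ : G →* GL (Fin n) E) (U : Subgroup G) (B : U →* GL (Fin m) E)
    (A : U →* GL (Fin a) E) : Prop :=
  ∃ (P : Matrix (Fin n) (Fin m × Fin a) E) (Q : Matrix (Fin m × Fin a) (Fin n) E),
    P * Q = 1 ∧ Q * P = 1 ∧ ∀ u : U, matrixOf ρ u = P * (matrixOf B u ⊗ₖ matrixOf A u) * Q

/-- On some open subgroup `U`, `ρ` is a tensor product `B ⊗ A` of continuous representations
which are trivial on the kernel of `ρ`, `B` is trivial on `N ∩ U` and irreducible on all open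
subgroups, `A` is irreducible on the intersections of `N` and the open subgroups of `U`, and the
determinants have finite order. -/
def HasDecomposition [TopologicalSpace G] [TopologicalSpace E] (ρ : G →* GL (Fin n) E)
    (N : Subgroup G) : Prop :=
  ∃ (U : Subgroup G) (m a : ℕ) (A : U →* GL (Fin a) E) (B : U →* GL (Fin m) E),
    IsOpen (U : Set G) ∧ m * a = n ∧ IsTensorProduct ρ U B A ∧ Continuous A ∧ Continuous B ∧
    (∀ u : U, (u : G) ∈ N → B u = 1) ∧
    LieIrreducibleOn A (N.subgroupOf U) ∧ LieIrreducibleOn B ⊤ ∧
    (∀ u : U, ρ u = 1 → A u = 1 ∧ B u = 1) ∧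
    (∀ u : U, (matrixOf A u).det ^ m = 1 ∧ (matrixOf B u).det ^ a = 1)

/-- For some open subgroup `U`, the restriction of `ρ` to `N ∩ U` has an eigenvector. -/
def HasLine [TopologicalSpace G] (ρ : G →* GL (Fin n) E) (N : Subgroup G) : Prop :=
  ∃ v : Fin n → E, v ≠ 0 ∧ ∃ U : Subgroup G, IsOpen (U : Set G) ∧
    ∀ h ∈ N ⊓ U, ∃ c : E, matrixOf ρ h *ᵥ v = c • v

end defs

/-- The theorem. -/
theorem result (G : Type) [Group G] [TopologicalSpace G] [IsTopologicalGroup G] [CompactSpace G]
    [TotallyDisconnectedSpace G] (N : Subgroup G) (hN : N.Normal)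
    (E : Type) [NormedField E] [CharZero E] [IsAlgClosed E] (n : ℕ) (hn : 0 < n)
    (ρ : G →* GL (Fin n) E) (hρ : Continuous ρ) (hlie : LieIrreducibleOn ρ ⊤)
    (hdet : HasFiniteDet ρ) :
    HasDecomposition ρ N ∧ (HasLine ρ N → ComesFromBase ρ N) ∧
      (n.Prime → LieIrreducibleOn ρ N ∨ ComesFromBase ρ N) :=
  Pool.Agent.H313.TD.Cor.full (Pool.Agent.H313.TD.basis_profinite G) N hN hn
    (Pool.Agent.H313.TD.roots_normed E hn) ρ hρ hlie hdet

end Pool.Agent.Results.MP_80bee4_ag.RelativeTensorDecomposition
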